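import Mathlib
import Pool.Agent.H37.EtfCore

/-!
# Euler bricks: the local bound at a prime `p ≡ ±3 mod 8`

A set of residues all of whose sums of two different elements are squares has at most `√p + 3`
elements. For `p ≡ ±3 mod 8` the entries of an Euler brick with a given `p`-adic valuation give
such a set, without repetition since `2` is no square mod `p`.
-/

set_option autoImplicit false

namespace Pool.Agent.H58.EB
open Finset

section Field
variable {F : Type*} [Field F] [Fintype F] [DecidableEq F]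

lemma shift_sum (hF : ringChar F ≠ 2) {s t : F} (h : s ≠ t) :
    ∑ x : F, quadraticChar F (x + s) * quadraticChar F (x + t) = -1 := by
  rw [← Pool.Agent.H37.Etf.paley_sum hF h]
  refine Fintype.sum_equiv (Equiv.neg F) _ _ (fun x => ?_)
  simp only [Equiv.neg_apply, sub_neg_eq_add]
  rw [add_comm x s, add_comm x t]

lemma qc_le (a : F) : quadraticChar F a ≤ 1 := by
  rcases eq_or_ne a 0 with rfl | h
  · rw [MulChar.map_zero]
    norm_num
  · rcases quadraticChar_dichotomy h with h1 | h1 <;> rw [h1] <;> norm_num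

lemma qc_ge (a : F) : -1 ≤ quadraticChar F a := by
  rcases eq_or_ne a 0 with rfl | h
  · rw [MulChar.map_zero]
    norm_num
  · rcases quadraticChar_dichotomy h with h1 | h1 <;> rw [h1] <;> norm_num

lemma shift_self (s : F) :
    ∑ x : F, quadraticChar F (x + s) * quadraticChar F (x + s) ≤ Fintype.card F := by
  calc ∑ x : F, quadraticChar F (x + s) * quadraticChar F (x + s)
      ≤ ∑ _x : F, (1 : ℤ) := by
        apply sum_le_sum
        intro x _
        nlinarith [qc_le (x + s), qc_ge (x + s)]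
    _ = Fintype.card F := by simp

lemma second_moment (hF : ringChar F ≠ 2) (T : Finset F) :
    ∑ x : F, (∑ t ∈ T, quadraticChar F (x + t)) ^ 2 ≤ T.card * Fintype.card F := by
  calc ∑ x : F, (∑ t ∈ T, quadraticChar F (x + t)) ^ 2
      = ∑ s ∈ T, ∑ t ∈ T, ∑ x : F, quadraticChar F (x + s) * quadraticChar F (x + t) := by
        have : ∀ x : F, (∑ t ∈ T, quadraticChar F (x + t)) ^ 2 =
            ∑ s ∈ T, ∑ t ∈ T, quadraticChar F (x + s) * quadraticChar F (x + t) := by
          intro x
          rw [sq, sum_mul_sum]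
        rw [sum_congr rfl (fun x _ => this x), sum_comm]
        refine sum_congr rfl (fun s _ => ?_)
        rw [sum_comm]
    _ ≤ ∑ s ∈ T, ∑ t ∈ T, (if s = t then (Fintype.card F : ℤ) else 0) := by
        apply sum_le_sum
        intro s _
        apply sum_le_sum
        intro t _
        split_ifs with h
        · rw [h]
          exact shift_self t
        · rw [shift_sum hF h]
          norm_num
    _ = T.card * Fintype.card F := by
        rw [sum_congr rfl (g := fun _ => (Fintype.card F : ℤ))]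
        · rw [sum_const, nsmul_eq_mul]
        · intro s hs
          rw [sum_ite_eq, if_pos hs]

/-- a set with square sums of pairs is small -/
theorem clique (hF : ringChar F ≠ 2) (T : Finset F)
    (h : ∀ s ∈ T, ∀ t ∈ T, s ≠ t → IsSquare (s + t)) :
    T.card ≤ Nat.sqrt (Fintype.card F) + 3 := by
  by_contra hcon
  have h3 : 3 < T.card := by omega
  have low : ∀ s ∈ T, (T.card : ℤ) - 3 ≤ ∑ t ∈ T, quadraticChar F (s + t) := by
    intro s hs
    have h1 : ∑ t ∈ T, (1 - quadraticChar F (s + t)) ≤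
        ∑ t ∈ T, ((if t = s then (2 : ℤ) else 0) + (if t = -s then 1 else 0)) := by
      apply sum_le_sum
      intro t ht
      by_cases hts : t = s
      · have := qc_ge (s + t)
        rw [if_pos hts]
        split_ifs <;> linarith
      · rw [if_neg hts]
        by_cases h2 : t = -s
        · rw [if_pos h2, h2, add_neg_cancel, MulChar.map_zero]
          norm_num
        · rw [if_neg h2]
          have h3 : s + t ≠ 0 := fun h4 => h2 (by linear_combination h4)
          have h4 := h s hs t ht (Ne.symm hts)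
          rw [(quadraticChar_one_iff_isSquare h3).2 h4]
          norm_num
    have h2 : ∑ t ∈ T, ((if t = s then (2 : ℤ) else 0) + (if t = -s then 1 else 0)) ≤ 3 := by
      rw [sum_add_distrib, sum_ite_eq', sum_ite_eq']
      split_ifs <;> norm_num
    rw [sum_sub_distrib, sum_const, nsmul_eq_mul, mul_one] at h1
    linarith
  set S : ℤ := ∑ s ∈ T, ∑ t ∈ T, quadraticChar F (s + t) with hS
  have hS1 : (T.card : ℤ) * ((T.card : ℤ) - 3) ≤ S := by
    rw [hS, ← nsmul_eq_mul]
    exact card_nsmul_le_sum T _ _ low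
  have hS2 : S ^ 2 ≤ T.card * (T.card * Fintype.card F) := by
    have h1 := sq_sum_le_card_mul_sum_sq (s := T) (f := fun s => ∑ t ∈ T, quadraticChar F (s + t))
    refine h1.trans ?_
    apply mul_le_mul_of_nonneg_left _ (by positivity)
    refine le_trans ?_ (second_moment hF T)
    apply sum_le_sum_of_subset_of_nonneg (subset_univ T)
    intro i _ _
    positivity
  have h4 : (0 : ℤ) < (T.card : ℤ) - 3 := by
    have : (3 : ℤ) < T.card := by exact_mod_cast h3
    linarith
  have h5 : (0 : ℤ) < T.card := by linarith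
  have h6 : ((T.card : ℤ) * ((T.card : ℤ) - 3)) ^ 2 ≤ S ^ 2 :=
    pow_le_pow_left₀ (by positivity) hS1 2
  have h7 : ((T.card : ℤ) - 3) ^ 2 ≤ Fintype.card F := by
    have h8 : (T.card : ℤ) ^ 2 * ((T.card : ℤ) - 3) ^ 2 ≤ (T.card : ℤ) ^ 2 * Fintype.card F := by
      calc (T.card : ℤ) ^ 2 * ((T.card : ℤ) - 3) ^ 2
          = ((T.card : ℤ) * ((T.card : ℤ) - 3)) ^ 2 := by ring
        _ ≤ S ^ 2 := h6
        _ ≤ T.card * (T.card * Fintype.card F) := hS2
        _ = (T.card : ℤ) ^ 2 * Fintype.card F := by ring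
    exact le_of_mul_le_mul_left h8 (by positivity)
  have h8 : (T.card - 3) ^ 2 ≤ Fintype.card F := by
    have h9 : ((T.card - 3 : ℕ) : ℤ) = (T.card : ℤ) - 3 := by
      push_cast [Nat.cast_sub h3.le]
      ring
    have : (((T.card - 3) ^ 2 : ℕ) : ℤ) ≤ Fintype.card F := by
      push_cast [h9]
      exact h7
    exact_mod_cast this
  have h10 : T.card - 3 ≤ Nat.sqrt (Fintype.card F) := by
    rw [Nat.le_sqrt']
    exact h8
  omega

end Field

/-- the entries with a given valuation -/
theorem fibre {n : ℕ} (x : Fin n → ℕ) (hx : ∀ i, 0 < x i)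
    (hsq : ∀ i j, i ≠ j → IsSquare (x i ^ 2 + x j ^ 2)) (p : ℕ) (hp : p.Prime)
    (hp8 : p % 8 = 3 ∨ p % 8 = 5) (v : ℕ) :
    (univ.filter (fun i => (x i).factorization p = v)).card ≤ Nat.sqrt p + 3 := by
  classical
  haveI : Fact p.Prime := ⟨hp⟩
  have hp2 : p ≠ 2 := by
    rintro rfl
    omega
  have hF : ringChar (ZMod p) ≠ 2 := by
    rw [ZMod.ringChar_zmod_n]
    exact hp2
  have h2 : ¬ IsSquare (2 : ZMod p) := by
    rw [ZMod.exists_sq_eq_two_iff hp2]
    omega
  set I := univ.filter (fun i => (x i).factorization p = v) with hI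
  set u : Fin n → ℕ := fun i => x i / p ^ v with hu
  have hxu : ∀ i ∈ I, x i = p ^ v * u i := by
    intro i hi
    have hv : (x i).factorization p = v := (mem_filter.1 hi).2
    have h1 := Nat.ordProj_mul_ordCompl_eq_self (x i) p
    rw [hv] at h1
    exact h1.symm
  have hpu : ∀ i ∈ I, ((u i : ℕ) : ZMod p) ≠ 0 := by
    intro i hi h0
    have hv : (x i).factorization p = v := (mem_filter.1 hi).2
    have h1 := Nat.not_dvd_ordCompl hp (hx i).ne'
    rw [hv] at h1
    exact h1 ((ZMod.natCast_eq_zero_iff _ _).1 h0)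
  have key : ∀ i ∈ I, ∀ j ∈ I, i ≠ j →
      IsSquare (((u i : ℕ) : ZMod p) ^ 2 + ((u j : ℕ) : ZMod p) ^ 2) := by
    intro i hi j hj hij
    obtain ⟨z, hz⟩ := hsq i j hij
    rw [hxu i hi, hxu j hj] at hz
    have h1 : (p ^ v) ^ 2 ∣ z ^ 2 := ⟨u i ^ 2 + u j ^ 2, by rw [sq z, ← hz]; ring⟩
    have h3 : p ^ v ∣ z := (Nat.pow_dvd_pow_iff two_ne_zero).1 h1
    obtain ⟨w, rfl⟩ := h3
    have h4 : u i ^ 2 + u j ^ 2 = w ^ 2 := by
      have h5 : (p ^ v) ^ 2 * (u i ^ 2 + u j ^ 2) = (p ^ v) ^ 2 * w ^ 2 := by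
        linear_combination hz
      exact Nat.eq_of_mul_eq_mul_left (pow_pos (pow_pos hp.pos _) _) h5
    refine ⟨(w : ZMod p), ?_⟩
    rw [← sq]
    exact_mod_cast congrArg (Nat.cast : ℕ → ZMod p) h4
  have inj : Set.InjOn (fun i => ((u i : ℕ) : ZMod p) ^ 2) (I : Set (Fin n)) := by
    intro i hi j hj hij
    by_contra hne
    have h1 := key i hi j hj hne
    simp only at hij
    rw [← hij] at h1
    obtain ⟨w, hw⟩ := h1
    apply h2
    refine ⟨w / (u i : ZMod p), ?_⟩
    have h3 := hpu i hi
    field_simp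
    linear_combination hw
  rw [← card_image_of_injOn inj]
  have h5 := clique hF (I.image (fun i => ((u i : ℕ) : ZMod p) ^ 2)) (by
    intro s hs t ht hst
    obtain ⟨i, hi, rfl⟩ := mem_image.1 hs
    obtain ⟨j, hj, rfl⟩ := mem_image.1 ht
    exact key i hi j hj (fun h => hst (by rw [h])))
  rwa [ZMod.card] at h5

/-- few entries with small valuation force a large sum of the valuations -/
lemma count {n : ℕ} (v : Fin n → ℕ) (w K : ℕ) (h : ∀ k, (univ.filter (fun i => v i = k)).card ≤ w) :
    K * n ≤ ∑ i, v i + K * (K * w) := by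
  have h1 : (univ.filter (fun i => v i < K)).card ≤ K * w := by
    have h2 : (univ.filter (fun i => v i < K)).card =
        ∑ k ∈ range K, ((univ.filter (fun i => v i < K)).filter (fun i => v i = k)).card := by
      apply card_eq_sum_card_fiberwise
      intro i hi
      simpa using hi
    rw [h2]
    calc ∑ k ∈ range K, ((univ.filter (fun i => v i < K)).filter (fun i => v i = k)).card
        ≤ ∑ _k ∈ range K, w := by
          apply sum_le_sum
          intro k _
          refine le_trans (card_le_card ?_) (h k)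
          intro i hi
          rw [mem_filter] at hi ⊢
          exact ⟨mem_univ _, hi.2⟩
      _ = K * w := by simp
  calc K * n = ∑ _i : Fin n, K := by simp [mul_comm]
    _ ≤ ∑ i : Fin n, (v i + if v i < K then K else 0) := by
        apply sum_le_sum
        intro i _
        split_ifs with h3 <;> omega
    _ = ∑ i, v i + K * (univ.filter (fun i => v i < K)).card := by
        rw [sum_add_distrib, ← sum_filter, sum_const, smul_eq_mul, mul_comm K]
    _ ≤ ∑ i, v i + K * (K * w) := by gcongr

/-- the sum of the valuations at `p` -/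
theorem val_sum {n : ℕ} (x : Fin n → ℕ) (hx : ∀ i, 0 < x i)
    (hsq : ∀ i j, i ≠ j → IsSquare (x i ^ 2 + x j ^ 2)) (p : ℕ) (hp : p.Prime)
    (hp8 : p % 8 = 3 ∨ p % 8 = 5) (hn : 8 * Real.sqrt p ≤ n) :
    (n : ℝ) ^ 2 / (32 * Real.sqrt p) ≤ ((∑ i, (x i).factorization p : ℕ) : ℝ) := by
  set w : ℕ := Nat.sqrt p + 3 with hw
  have hs1 : 1 ≤ Real.sqrt p := by
    rw [Real.one_le_sqrt]
    exact_mod_cast hp.one_lt.le
  have hw4 : (w : ℝ) ≤ 4 * Real.sqrt p := by
    have h1 : (Nat.sqrt p : ℝ) ≤ Real.sqrt p := Real.nat_sqrt_le_real_sqrt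
    rw [hw]
    push_cast
    linarith
  have hw0 : (0 : ℝ) < w := by
    rw [hw]
    positivity
  have hwpos : 0 < w := by omega
  set K : ℕ := n / (2 * w) with hK
  have hc := count (fun i => (x i).factorization p) w K (fun k => fibre x hx hsq p hp hp8 k)
  have hK1 : K * (2 * w) ≤ n := Nat.div_mul_le_self n (2 * w)
  have h2w : 2 * w ≤ n := by
    have : (2 * w : ℝ) ≤ n := by linarith
    exact_mod_cast this
  have hK2 : 1 ≤ K := by
    rw [hK]
    exact (Nat.one_le_div_iff (by omega)).2 h2w
  have hK3 : n < (K + 1) * (2 * w) := by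
    have := Nat.lt_succ_self (n / (2 * w))
    rw [Nat.div_lt_iff_lt_mul (by omega)] at this
    exact this
  have hc' : (K : ℝ) * n ≤ ((∑ i, (x i).factorization p : ℕ) : ℝ) + K * (K * w) := by
    exact_mod_cast hc
  have hK1' : (K : ℝ) * (2 * w) ≤ n := by exact_mod_cast hK1
  have hK2' : (1 : ℝ) ≤ K := by exact_mod_cast hK2
  have hK3' : (n : ℝ) < (K + 1) * (2 * w) := by exact_mod_cast hK3
  have h5 : (n : ℝ) ≤ K * (4 * w) := by nlinarith
  have h6 : (K : ℝ) * n / 2 ≤ ((∑ i, (x i).factorization p : ℕ) : ℝ) := by nlinarith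
  refine le_trans ?_ h6
  rw [div_le_iff₀ (by positivity)]
  have h7 : (n : ℝ) ≤ K * (16 * Real.sqrt p) := by nlinarith
  have h8 : (0 : ℝ) ≤ n := Nat.cast_nonneg n
  nlinarith

/-- the part of the logarithm from a set of primes -/
lemma log_ge (P : Finset ℕ) (m : ℕ) :
    ∑ p ∈ P, (m.factorization p : ℝ) * Real.log p ≤ Real.log m := by
  rw [Real.log_nat_eq_sum_factorization, Finsupp.sum]
  calc ∑ p ∈ P, (m.factorization p : ℝ) * Real.log p
      = ∑ p ∈ P.filter (fun p => p ∈ m.factorization.support),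
          (m.factorization p : ℝ) * Real.log p := by
        rw [sum_filter_of_ne]
        intro p _ h1
        rw [Finsupp.mem_support_iff]
        intro h2
        rw [h2] at h1
        simp at h1
    _ ≤ ∑ p ∈ m.factorization.support, (m.factorization p : ℝ) * Real.log p := by
        apply sum_le_sum_of_subset_of_nonneg
        · intro p hp
          exact (mem_filter.1 hp).2
        · intro p _ _
          exact mul_nonneg (Nat.cast_nonneg _) (Real.log_natCast_nonneg p)

/-- the product of all entries -/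
theorem log_sum {n : ℕ} (x : Fin n → ℕ) (hx : ∀ i, 0 < x i)
    (hsq : ∀ i j, i ≠ j → IsSquare (x i ^ 2 + x j ^ 2)) (P : Finset ℕ)
    (hP : ∀ p ∈ P, p.Prime ∧ (p % 8 = 3 ∨ p % 8 = 5) ∧ 8 * Real.sqrt p ≤ n) :
    (n : ℝ) / 4 * ∑ p ∈ P, Real.log p ≤ ∑ i, Real.log (x i) := by
  calc (n : ℝ) / 4 * ∑ p ∈ P, Real.log p
      = ∑ p ∈ P, (n : ℝ) / 4 * Real.log p := by rw [mul_sum]
    _ ≤ ∑ p ∈ P, ((∑ i, (x i).factorization p : ℕ) : ℝ) * Real.log p := by
        apply sum_le_sum
        intro p hp
        obtain ⟨h1, h2, h3⟩ := hP p hp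
        apply mul_le_mul_of_nonneg_right _ (Real.log_natCast_nonneg p)
        refine le_trans ?_ (val_sum x hx hsq p h1 h2 h3)
        have hs0 : 0 < Real.sqrt p := Real.sqrt_pos.2 (by exact_mod_cast h1.pos)
        have hn0 : (0 : ℝ) < n := by linarith
        rw [div_le_div_iff₀ (by norm_num) (by positivity)]
        nlinarith
    _ = ∑ i, ∑ p ∈ P, ((x i).factorization p : ℝ) * Real.log p := by
        rw [sum_comm]
        refine sum_congr rfl (fun p _ => ?_)
        rw [Nat.cast_sum, sum_mul]
    _ ≤ ∑ i, Real.log (x i) := by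
        apply sum_le_sum
        intro i _
        exact log_ge P (x i)

end Pool.Agent.H58.EB
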