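import Mathlib
import Pool.Agent.H70.TIE.All

/-!
# Primes `3 mod 8`, from the Bombieri–Vinogradov theorem of project TIE
-/

set_option autoImplicit false

namespace Pool.Agent.H58.EB
open Finset

/-- the primes `3 mod 8` up to `8 x + 1` -/
noncomputable def PP (x : ℝ) : Finset ℕ :=
  (Icc 2 (⌊8 * x⌋₊ + 1)).filter (fun p => p.Prime ∧ p % 8 = 3)

theorem primes38 : ∃ c x0 : ℝ, 0 < c ∧ ∀ x : ℝ, x0 ≤ x → c * x ≤ ∑ p ∈ PP x, Real.log p := by
  obtain ⟨c1, C1, hc1, hC1, hche⟩ := MTA.all_CHE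
  obtain ⟨x1, hx1⟩ := hche 1 le_rfl
  obtain ⟨x2, hx2⟩ := TIE.all_BVTx 1 1 8 (by norm_num)
  refine ⟨c1 / 8, max (max x1 x2) (max 2 (Real.exp (8 / c1))), by positivity, ?_⟩
  intro x hx
  have hxx1 : x1 ≤ x := le_trans (le_trans (le_max_left _ _) (le_max_left _ _)) hx
  have hxx2 : x2 ≤ x := le_trans (le_trans (le_max_right _ _) (le_max_left _ _)) hx
  have hx3 : 2 ≤ x := le_trans (le_trans (le_max_left _ _) (le_max_right _ _)) hx
  have hx4 : Real.exp (8 / c1) ≤ x := le_trans (le_trans (le_max_right _ _) (le_max_right _ _)) hx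
  have hlog : 8 / c1 ≤ Real.log x := by
    rw [Real.le_log_iff_exp_le (by linarith)]
    exact hx4
  have hlog0 : 0 < Real.log x := lt_of_lt_of_le (by positivity) hlog
  obtain ⟨p0, hp0, hbv⟩ := hx2 x hxx2
  have hnn : ∀ q : ℕ, 0 ≤ MTA.Emax 1 x (8 * q) := by
    intro q
    rw [MTA.Emax]
    apply Real.iSup_nonneg
    intro a
    split_ifs
    · exact abs_nonneg _
    · exact le_rfl
  have h1 : MTA.Emax 1 x 8 ≤ x / Real.log x := by
    have h2 : (1 : ℕ) ∈ (Icc 1 ⌊x ^ (1 / 6 : ℝ)⌋₊).filter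
        (fun q => Squarefree q ∧ q.Coprime p0) := by
      rw [mem_filter, mem_Icc]
      refine ⟨⟨le_rfl, ?_⟩, squarefree_one, Nat.coprime_one_left p0⟩
      apply Nat.le_floor
      rw [Nat.cast_one]
      exact Real.one_le_rpow (by linarith) (by norm_num)
    have h3 := single_le_sum (f := fun q : ℕ => ((1 : ℕ) : ℝ) ^ q.primeFactors.card *
      MTA.Emax 1 x (8 * q)) (fun q _ => mul_nonneg (by positivity) (hnn q)) h2
    have h4 := h3.trans hbv
    simpa using h4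
  have h2 : |MTA.EE 1 x 8 3| ≤ MTA.Emax 1 x 8 := by
    rw [MTA.Emax]
    have h3 := le_ciSup (f := fun a : Fin 8 => if (a : ℕ).Coprime 8 then |MTA.EE 1 x 8 a| else 0)
      (Finite.bddAbove_range _) 3
    refine le_trans (le_of_eq ?_) h3
    have h4 : ((3 : Fin 8) : ℕ) = 3 := rfl
    simp only [h4]
    rw [if_pos (by decide)]
  have h3 : MTA.THa 1 x 8 3 ≤ ∑ p ∈ PP x, Real.log p := by
    rw [MTA.THa, PP]
    have h4 : (8 * ((1 : ℕ) : ℝ) * x) = 8 * x := by push_cast; ring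
    rw [h4]
    have h5 : (Icc 2 (⌊8 * x⌋₊ + 1)).filter (fun p => p.Prime ∧ p ≡ 3 [MOD 8]) =
        (Icc 2 (⌊8 * x⌋₊ + 1)).filter (fun p => p.Prime ∧ p % 8 = 3) := by
      apply filter_congr
      intro p _
      rfl
    rw [h5]
    apply sum_le_sum
    intro p _
    have h6 : MTA.rho (Real.log (((p : ℝ) - 1) / (((1 : ℕ) : ℝ) * x))) ≤ 1 :=
      Real.smoothTransition.le_one _
    have h7 : 0 ≤ Real.log (p : ℝ) := Real.log_natCast_nonneg p
    exact mul_le_of_le_one_right h7 h6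
  have h4 := (hx1 x hxx1).1
  have h5 : (Nat.totient 8 : ℝ) = 4 := by
    have : Nat.totient 8 = 4 := by decide
    rw [this]
    norm_num
  have h6 : -(x / Real.log x) ≤ MTA.EE 1 x 8 3 := by
    have := neg_abs_le (MTA.EE 1 x 8 3)
    linarith
  rw [MTA.EE, h5] at h6
  have h7 : x / Real.log x ≤ c1 / 8 * x := by
    rw [div_le_iff₀ hlog0]
    have h8 : 1 ≤ c1 / 8 * Real.log x := by
      calc (1 : ℝ) = c1 / 8 * (8 / c1) := by field_simp
        _ ≤ c1 / 8 * Real.log x := by gcongr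
    nlinarith
  have h8 : c1 * (((1 : ℕ) : ℝ) * x) = c1 * x := by push_cast; ring
  rw [h8] at h4
  linarith

end Pool.Agent.H58.EB
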